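import Pool.Agent.H41.CV1

namespace Pool.Agent.Results.MP_3d36e1_mp.NotConvex

open Pool.Agent.H41.TF MeasureTheory

theorem result : ∃ A γ z l : ℝ, 0 < A ∧ 0 < γ ∧ 0 < z ∧ 0 < l ∧
    ∃ ρ₀ g₀, Adm (5 / 3) ρ₀ g₀ ∧ ∫ x, ρ₀ x ≤ l ∧
      ∀ ρ g (ψ : ℝ → ℝ), Adm (5 / 3) ρ g → ∫ x, ρ x ≤ l → (∀ x, √(ρ x) = ψ ‖x‖) →
        (ConvexOn ℝ (Set.Ici 0) ψ ∨
          ((∀ r, 0 ≤ r → 0 < ψ r) ∧ ConvexOn ℝ (Set.Ici 0) fun r => Real.log (ψ r))) →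
        energyTFW (5 / 3) A γ z ρ₀ g₀ < energyTFW (5 / 3) A γ z ρ g := by
  obtain ⟨A, γ, z, l, h1, h2, h3, h4, σ, k, h5, h6, h7⟩ := notconv
  refine ⟨A, γ, z, l, h1, h2, h3, h4, σ, k, h5, h6, fun ρ g ψ a1 a2 a3 a4 =>
    h7 ρ g a1 a2 fun x => ?_⟩
  have n := norm_nonneg x
  have n' : 0 ≤ 0.9 * ‖x‖ := by positivity
  have e : (1 / 2 : ℝ) • (0.9 * ‖x‖) + (1 / 2 : ℝ) • ‖x‖ = 0.95 * ‖x‖ := by
    simp only [smul_eq_mul]; ring
  simp only [a3, norm_smul, Real.norm_of_nonneg (by norm_num : (0 : ℝ) ≤ 0.95),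
    Real.norm_of_nonneg (by norm_num : (0 : ℝ) ≤ 0.9)]
  rcases a4 with h | ⟨h, h'⟩
  · have := h.2 n' n one_half_pos.le one_half_pos.le (add_halves 1)
    rw [e] at this
    simp only [smul_eq_mul] at this
    linarith
  · have b1 := Real.exp_le_exp.mpr (h'.2 n' n one_half_pos.le one_half_pos.le (add_halves 1))
    have b2 := b1.trans (convexOn_exp.2 trivial trivial one_half_pos.le one_half_pos.le
      (add_halves 1))
    rw [e, Real.exp_log (h _ (by positivity)), Real.exp_log (h _ n'), Real.exp_log (h _ n)] at b2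
    simp only [smul_eq_mul] at b2
    linarith

end Pool.Agent.Results.MP_3d36e1_mp.NotConvex
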